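import Pool.Agent.H41.Wnc4

set_option autoImplicit false

open Set Bornology TopologicalSpace Cardinal Pool.Agent.H41.Wnc
open scoped ENNReal NNReal

theorem Pool.Agent.Results.MP_af3abc_an.Dichotomy.result (H : Type*) [NormedAddCommGroup H]
    [InnerProductSpace ℂ H] [CompleteSpace H] :
    (SeparableSpace H → ∀ A : Set (KH H), IsBounded A → om A = wk A ∧ wk A = wck A) ∧
    (¬ SeparableSpace H →
      ∀ c : ℝ≥0, ∃ A : Set (KH H), IsBounded A ∧ c * wk A < om A) := by
  obtain ⟨w, b, hb⟩ := exists_hilbertBasis ℂ H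
  refine ⟨fun hs A hA => ?_, fun hs => ?_⟩
  · suffices om A ≤ wck A from ⟨(this.trans (wck_le hA)).antisymm wk_le,
      (wk_le.trans this).antisymm (wck_le hA)⟩
    have : Countable w := Pairwise.countable_of_isOpen_disjoint
      (s := fun i : w => Metric.ball (b i) (1 / 2)) (fun i j h => Metric.ball_disjoint_ball (by
        have := norm_inner_le_norm (𝕜 := ℂ) (b i) (b i - b j)
        rw [inner_sub_right, b.orthonormal.2 h, inner_self_eq_norm_sq_to_K, b.orthonormal.1] at this
        rw [add_halves]
        simpa [dist_eq_norm] using this)) (fun _ => Metric.isOpen_ball) fun _ => Metric.nonempty_ball.2 (by norm_num)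
    cases finite_or_infinite w with
    | inl h =>
      have := Fintype.ofFinite w
      have := b.toOrthonormalBasis.toBasis.finiteDimensional_of_finite
      have : FiniteDimensional ℂ (KH H) := inferInstanceAs (FiniteDimensional ℂ (CO H))
      have := FiniteDimensional.proper ℂ (KH H)
      exact (iInf₂_le_of_le (closure A) (hA.isCompact_closure.image (toWeakSpaceCLM ℂ _).continuous)
        (iSup₂_le fun a ha => (Metric.infEDist_zero_of_mem (subset_closure ha)).le)).trans zero_le
    | inr h =>
      obtain ⟨e⟩ := nonempty_denumerable w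
      let f := (Denumerable.eqv w).symm
      exact sep (HilbertBasis.mk (b.orthonormal.comp f f.injective)
        (by rw [f.surjective.range_comp, b.dense_span])) hA
  · have hw : ¬ w.Countable := fun h => hs (isSeparable_univ_iff.1 (by
      have := (h.isSeparable.span (R := ℂ)).closure
      rwa [← Submodule.topologicalClosure_coe, ← Subtype.range_coe (s := w), ← hb, b.dense_span] at this))
    rw [← le_aleph0_iff_set_countable, not_le, ← aleph_one_le_iff] at hw
    have : Uncountable (ℵ₁ : Cardinal.{0}).out := aleph0_lt_mk_iff.1 (by simp [aleph0_lt_aleph_one])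
    obtain ⟨c⟩ : Nonempty ((ℵ₁ : Cardinal.{0}).out ↪ (ℕ → Bool)) :=
      (Cardinal.le_def ..).1 (by simpa using aleph_one_le_continuum)
    obtain ⟨f⟩ : Nonempty (ℕ × (ℵ₁ : Cardinal.{0}).out ↪ w) :=
      lift_mk_le'.1 (by simpa using hw)
    obtain ⟨y⟩ : Nonempty (ℵ₁ : Cardinal.{0}).out := inferInstance
    have k : ∀ n : ℕ, ∃ A : Set (KH H), IsBounded A ∧ wk A ≤ 1 ∧ n ≤ om A := fun n => by
      have o := b.orthonormal.comp f f.injective
      have := nonsep c.injective (o.comp (·, y) (Prod.mk_left_injective y)) o (n ^ 2)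
      rwa [Nat.cast_pow, Real.sqrt_sq n.cast_nonneg, ENNReal.ofReal_natCast] at this
    intro c
    obtain ⟨n, hn⟩ := exists_nat_gt c
    obtain ⟨A, h1, h2, h3⟩ := k n
    exact ⟨A, h1, ((mul_le_of_le_one_right' h2).trans_lt (by exact_mod_cast hn)).trans_le h3⟩
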